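import Mathlib
import Pool.Agent.TH841.NF.FamN
import Pool.Agent.W597.SE.SELC
import Pool.Agent.W701.FK.Find

/-! Base change to a multiquadratic field: the rank and the corank are bounded by the 2-Selmer groups
of the twists. -/

set_option autoImplicit false

namespace Pool.Agent.Q17.BF

open Finset

open Pool.Agent.W307.SE (Sel SelR)
open Pool.Agent.TH841.NF (EF Gen one_field)

/-- the Selmer group of a twist -/
lemma selR_tw {A B e1 e2 e3 M N : ℤ} {w : ℚ} (hw : w ≠ 0) (hD : 4 * A ^ 3 + 27 * B ^ 2 ≠ 0)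
    (he : ∀ x : ℤ, x ^ 3 + A * x + B = (x - e1) * (x - e2) * (x - e3))
    (h12 : ((e2 - e1 : ℤ) : ℚ) = M * w ^ 2) (h13 : ((e3 - e1 : ℤ) : ℚ) = N * w ^ 2)
    (hM : M ≠ 0) (hN : N ≠ 0) (hMN : M ≠ N) {d : ℤ} (hd : d ≠ 0) :
    (SelR (d ^ 2 * A) (d ^ 3 * B)).Finite ∧
      (SelR (d ^ 2 * A) (d ^ 3 * B)).ncard ≤ (Sel (d * M) (d * N)).ncard := by
  refine Pool.Agent.W597.SE.selc (d ^ 2 * A) (d ^ 3 * B) (d * e1) (d * e2) (d * e3) (d * M)
    (d * N) w (Pool.Agent.TH639.SL.disc_tw hd hD) (Pool.Agent.TH639.SL.roots_tw he d) hw ?_ ?_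
    (Pool.Agent.W701.FK.sel_fin' (mul_ne_zero hd hM) (mul_ne_zero hd hN)
      (fun h => hMN (mul_left_cancel₀ hd h)))
  · have : ((d * e2 - d * e1 : ℤ) : ℚ) = d * ((e2 - e1 : ℤ) : ℚ) := by
      push_cast
      ring
    rw [this, h12]
    push_cast
    ring
  · have : ((d * e3 - d * e1 : ℤ) : ℚ) = d * ((e3 - e1 : ℤ) : ℚ) := by
      push_cast
      ring
    rw [this, h13]
    push_cast
    ring

/-- the product of the orders of the 2-Selmer groups of the twists -/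
noncomputable def PS {s : ℕ} (d : Fin s → ℤ) (M N : ℤ) : ℕ :=
  ∏ T : Finset (Fin s), (Sel ((∏ i ∈ T, d i) * M) ((∏ i ∈ T, d i) * N)).ncard

/-- one curve over one field -/
theorem one_curve {K : Type} [Field K] [NumberField K] {s : ℕ} {d : Fin s → ℤ} (hK : Gen K d)
    (hd : ∀ i, d i ≠ 0) {A B e1 e2 e3 M N : ℤ} {w : ℚ} (hw : w ≠ 0)
    (hD : 4 * A ^ 3 + 27 * B ^ 2 ≠ 0)
    (he : ∀ x : ℤ, x ^ 3 + A * x + B = (x - e1) * (x - e2) * (x - e3))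
    (h12 : ((e2 - e1 : ℤ) : ℚ) = M * w ^ 2) (h13 : ((e3 - e1 : ℤ) : ℚ) = N * w ^ 2)
    (hM : M ≠ 0) (hN : N ≠ 0) (hMN : M ≠ N) {q : ℕ}
    (hq : Pool.Agent.TH841.NF.D.HasDiv (EF A B K) q) :
    (2 : ℝ) ^ (Pool.Agent.TH841.NF.D.rk (EF A B K) + q) ≤ (PS d M N : ℕ) := by
  have hne : ∀ T : Finset (Fin s), ∏ i ∈ T, d i ≠ 0 := fun T =>
    prod_ne_zero_iff.2 fun i _ => hd i
  have h := one_field hK hd hD
    (fun T => ((Sel ((∏ i ∈ T, d i) * M) ((∏ i ∈ T, d i) * N)).ncard : ℝ)) (fun T => ?_)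
    (fun T => Pool.Agent.W307.RG.fin_tw hD he (hne T)) hq
  · refine h.trans (le_of_eq ?_)
    unfold PS
    push_cast
    rfl
  · obtain ⟨h1, h2⟩ := selR_tw hw hD he h12 h13 hM hN hMN (hne T)
    have h3 := Pool.Agent.TH841.SH.bd_selR (Pool.Agent.TH639.SL.disc_tw (hne T) hD)
      (Pool.Agent.TH639.SL.roots_tw he _) h1
    exact ⟨h3.1, h3.2.trans (by exact_mod_cast h2)⟩

/-- the moments of the product -/
lemma exc_PS {α : Type} (A : ℕ → Finset α) {s : ℕ} (d : Fin s → ℤ) (M N : α → ℤ) (Z : Set α)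
    [DecidablePred (fun c => c ∉ Z)]
    (h : ∀ (T : Finset (Fin s)) (k : ℕ), ∃ C : ℝ, ∀ H, ∑ c ∈ (A H).filter (fun c => c ∉ Z),
      ((Sel ((∏ i ∈ T, d i) * M c) ((∏ i ∈ T, d i) * N c)).ncard : ℝ) ^ k ≤ C * (A H).card)
    (k : ℕ) : ∃ C : ℝ, ∀ H, ∑ c ∈ (A H).filter (fun c => c ∉ Z),
      ((PS d (M c) (N c) : ℕ) : ℝ) ^ k ≤ C * (A H).card := by
  choose C hC using fun T => h T (2 ^ s * k)
  refine ⟨∑ T, C T, fun H => ?_⟩
  have hc : Fintype.card (Finset (Fin s)) = 2 ^ s := by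
    rw [Fintype.card_finset, Fintype.card_fin]
  calc ∑ c ∈ (A H).filter (fun c => c ∉ Z), ((PS d (M c) (N c) : ℕ) : ℝ) ^ k
      ≤ ∑ c ∈ (A H).filter (fun c => c ∉ Z), ∑ T : Finset (Fin s),
        ((Sel ((∏ i ∈ T, d i) * M c) ((∏ i ∈ T, d i) * N c)).ncard : ℝ) ^ (2 ^ s * k) := by
        refine sum_le_sum fun c _ => ?_
        have := Pool.Agent.TH841.NF.prod_pow_le (fun T : Finset (Fin s) =>
          ((Sel ((∏ i ∈ T, d i) * M c) ((∏ i ∈ T, d i) * N c)).ncard : ℝ))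
          (fun T => Nat.cast_nonneg _) k
        rw [hc] at this
        refine le_trans (le_of_eq ?_) this
        unfold PS
        push_cast
        rfl
    _ = ∑ T : Finset (Fin s), ∑ c ∈ (A H).filter (fun c => c ∉ Z),
        ((Sel ((∏ i ∈ T, d i) * M c) ((∏ i ∈ T, d i) * N c)).ncard : ℝ) ^ (2 ^ s * k) := sum_comm
    _ ≤ ∑ T, C T * (A H).card := sum_le_sum fun T _ => hC T H
    _ = _ := by rw [sum_mul]

end Pool.Agent.Q17.BF
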