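import Mathlib
import Pool.Agent.TH344.BF.Main

/-! The quadratic twists of the curves with `Z/2 x Z/6`, one exceptional set for all the moments
(after `Pool.Agent.TH344.BF.T26`). -/

set_option autoImplicit false

namespace Pool.Agent.Q17.BF

open Finset Pool.Agent.W262.RK Pool.Agent.W307.RT Pool.Agent.W307.SE Pool.Agent.TH344.DT
  Pool.Agent.TH344.JG Pool.Agent.TH344.SG Pool.Agent.TH344.GT Pool.Agent.W135.RT
  Pool.Agent.TH344.BF

variable (d : ℤ)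

lemma FMd (cls : Fin 6 → Fin 4) (m : Fin 6 → ℕ) (f : Fin 6 → ℤ) (k : Fin 3) :
    FM cls (fun _ => -d) m f k = d * FM cls (fun _ => -1) m f k := by
  unfold FM
  ring

lemma FMd0 (u v : ℤ) : FM c6 (fun _ => -d) m6 (fv α6 β6 u v) 0 = d * -(M6 u (v + 3 * u)) := by
  rw [FMd d c6 m6 _ 0, FM60]

lemma FMd1 (u v : ℤ) : FM c6 (fun _ => -d) m6 (fv α6 β6 u v) 1 = d * -(N6 u (v + 3 * u)) := by
  rw [FMd d c6 m6 _ 1, FM61]

lemma FMd2 (u v : ℤ) : FM c6 (fun _ => -d) m6 (fv α6 β6 u v) 2 =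
    d * (-(M6 u (v + 3 * u)) + N6 u (v + 3 * u)) := by
  rw [FMd d c6 m6 _ 2, FM62]

/-- the constants -/
def κ6d : Fin 6 → ℤ := kapM c6 (fun _ => -d) m6 α6 β6

lemma κ6d_eq (j : Fin 6) : κ6d d j = d * κ6 j := by
  unfold κ6d κ6 kapM
  ring

variable {d}

lemma κ6d_ne (hd : d ≠ 0) : ∀ j, κ6d d j ≠ 0 := fun j => by
  rw [κ6d_eq]
  exact mul_ne_zero hd (κ6_ne j)

theorem mafk6d (hM : S_MAFK) (hd : d ≠ 0) {k : ℕ} (hk : 1 ≤ k) : ∃ T : Finset (Fin 6 → ℝ),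
    (∀ t ∈ T, ∀ j, 0 < t j) ∧ (∀ t ∈ T, 1 < ∏ j, t j) ∧ MAFK (ag c6) (κ6d d) k T :=
  hM (Fin 6) (ag c6) 4 k (κ6d d) hk (by norm_num) (ag_self _) (ag_comm _) (by decide) (by decide)
    (κ6d_ne hd)

variable (d) in
open Classical in
/-- the weighted `k`-th power -/
noncomputable def W6d (k : ℕ) (T : Finset (Fin 6 → ℝ)) (t : ℤ × ℤ) : ℝ :=
  if IsCoprime t.1 t.2 ∧ M6 t.1 t.2 ≠ 0 ∧ N6 t.1 t.2 ≠ 0 ∧ M6 t.1 t.2 ≠ N6 t.1 t.2 then
    ((Sel (d * -(M6 t.1 t.2)) (d * -(N6 t.1 t.2))).ncard : ℝ) ^ k * rho T (om6 t) else 0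

lemma W6d_nonneg (k : ℕ) {T : Finset (Fin 6 → ℝ)} (hT : ∀ t ∈ T, ∀ j, 0 < t j) (t : ℤ × ℤ) :
    0 ≤ W6d d k T t := by
  unfold W6d
  split_ifs
  · exact mul_nonneg (by positivity) (rho_nonneg hT _)
  · exact le_rfl

lemma W6d_le (k : ℕ) {T : Finset (Fin 6 → ℝ)} (hT : ∀ t ∈ T, ∀ j, 0 < t j) (t : ℤ × ℤ) :
    W6d d k T t ≤ WB c6 (fun _ => -d) m6 α6 β6 k T (t.1, t.2 - 3 * t.1) := by
  have hnn : 0 ≤ WB c6 (fun _ => -d) m6 α6 β6 k T (t.1, t.2 - 3 * t.1) := by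
    unfold WB
    split_ifs
    · exact mul_nonneg (by positivity) (rho_nonneg hT _)
    · exact le_rfl
  unfold W6d
  split_ifs with h
  · obtain ⟨h1, h2, h3, h4⟩ := h
    have e : t.2 = (t.2 - 3 * t.1) + 3 * t.1 := by ring
    have h5 : IsCoprime t.1 (t.2 - 3 * t.1) := by
      have h6 : t.2 - 3 * t.1 = t.2 + t.1 * (-3) := by ring
      rw [h6]
      exact IsCoprime.add_mul_left_right_iff.2 h1
    rw [e] at h2 h3 h4
    have h6 := fv6_ne h2 h3 h4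
    unfold WB
    rw [if_pos ⟨h5, h6⟩, FMd0, FMd1, ← e]
    exact le_rfl
  · exact hnn

/-- the weighted moments over the boxes -/
theorem box6dw (hA : S_AVGB) (hd : d ≠ 0) {k : ℕ} {T : Finset (Fin 6 → ℝ)}
    (hT : ∀ t ∈ T, ∀ j, 0 < t j) (hM : MAFK (ag c6) (κ6d d) k T) :
    ∃ C : ℝ, 0 ≤ C ∧ ∀ N : ℕ, 1 ≤ N → ∑ t ∈ Box N, W6d d k T t ≤ C * (N : ℝ) ^ 2 := by
  obtain ⟨C, hC0, hC⟩ := hA (Fin 6) c6 (fun _ => -d) m6 α6 β6 (by decide)
    (fun _ => neg_ne_zero.2 hd) (by decide)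
    (by decide) (by decide) (κ6d_ne hd) (by decide) (fun j => Or.inl (by revert j; decide))
    (fun u v => by rw [FMd0, FMd1, FMd2]; ring) k T hT hM 1
  refine ⟨C * 9 ^ 2, by positivity, fun X hX => ?_⟩
  set N := 4 * X with hN
  have h1 : ∑ t ∈ Box X, W6d d k T t ≤ ∑ s ∈ Box N, WB c6 (fun _ => -d) m6 α6 β6 k T s := by
    calc ∑ t ∈ Box X, W6d d k T t
        ≤ ∑ t ∈ Box X, WB c6 (fun _ => -d) m6 α6 β6 k T (t.1, t.2 - 3 * t.1) :=
          sum_le_sum fun t _ => W6d_le k hT t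
      _ = ∑ s ∈ (Box X).image (fun t : ℤ × ℤ => (t.1, t.2 - 3 * t.1)),
            WB c6 (fun _ => -d) m6 α6 β6 k T s := by
          rw [sum_image]
          intro t _ t' _ h
          obtain ⟨h3, h4⟩ := Prod.mk.inj h
          rw [h3] at h4
          exact Prod.ext h3 (by linarith)
      _ ≤ _ := by
          apply sum_le_sum_of_subset_of_nonneg
          · intro s hs
            rw [mem_image] at hs
            obtain ⟨t, ht, rfl⟩ := hs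
            rw [mem_Box] at ht ⊢
            dsimp only
            omega
          · intro s _ _
            unfold WB
            split_ifs
            · exact mul_nonneg (by positivity) (rho_nonneg hT _)
            · exact le_rfl
  have h3 := hC (-((N : ℤ) + 1)) (-((N : ℤ) + 1)) (2 * N + 1) (by omega) (by
    rw [pow_one]
    omega) (by
    rw [pow_one]
    omega)
  rw [sum_Box_shift (WB c6 (fun _ => -d) m6 α6 β6 k T)] at h1
  refine h1.trans (h3.trans ?_)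
  rw [mul_assoc]
  apply mul_le_mul_of_nonneg_left _ hC0
  rw [← mul_pow]
  apply pow_le_pow_left₀ (Nat.cast_nonneg _)
  have hX' : (1 : ℝ) ≤ X := by exact_mod_cast hX
  rw [hN]
  push_cast
  nlinarith

/-- the Selmer group of `y² = x (x - d M) (x - d N)`, `(M, N)` the parameters of the curve -/
noncomputable def S6 (d : ℤ) (c : ℤ × ℤ) : ℕ :=
  (Sel (d * -(M6 (FF c).1 (FF c).2)) (d * -(N6 (FF c).1 (FF c).2))).ncard

/-- **one exceptional set for all the moments, for the twists of the curves with `Z/2 x Z/6`** -/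
theorem exc6d_of (hA : S_AVGB) (hM : S_MAFK) (hB : S_BADB) (hd : d ≠ 0) : EXC (Cv 6) (S6 d) := by
  classical
  apply exc_curves (κ := 24) (by norm_num) Pool.Agent.W376.RTL.low6 (147456 ^ 3) FF
    (fun t => M6 t.1 t.2 ≠ 0 ∧ N6 t.1 t.2 ≠ 0 ∧ M6 t.1 t.2 ≠ N6 t.1 t.2)
  · intro H c hc c' hc' hcc
    obtain ⟨s, hR⟩ := FF_spec hc
    obtain ⟨s', hR'⟩ := FF_spec hc'
    rw [← hcc] at hR'
    have hc1 := memCv (Finset.mem_coe.mp hc)
    have hc1' := memCv (Finset.mem_coe.mp hc')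
    obtain ⟨h1, h2⟩ := inj hR hR' hc1.2.2.2.1 hc1'.2.2.2.1
    exact Prod.ext h1 h2
  · intro H c hc
    obtain ⟨s, hR⟩ := FF_spec hc
    have hc1 := memCv hc
    exact ⟨⟨hR.m0, hR.n0, hR.mn⟩, bound2 hR H hc1.2.1 _ (Or.inl rfl),
      bound2 hR H hc1.2.1 _ (Or.inr rfl)⟩
  · intro k hk
    obtain ⟨T, hT1, hT2, hT3⟩ := mafk6d hM hd hk
    refine ⟨fun t => rho T (om6 t), W6d d k T, fun t => ⟨rho_nonneg hT1 _, rho_le_one _ _⟩,
      W6d_nonneg k hT1, fun ε hε => ?_, fun H c hc => ?_, box6dw hA hd hT1 hT3⟩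
    · obtain ⟨N0, h⟩ := bad6 hB hT1 hT2 ε hε
      refine ⟨N0, fun N hN => ?_⟩
      have := h N hN
      convert this using 3
      ext t
      simp
    · obtain ⟨s, hR⟩ := FF_spec hc
      unfold W6d
      rw [if_pos ⟨hR.cop, hR.m0, hR.n0, hR.mn⟩]
      exact le_rfl

theorem exc6d (hd : d ≠ 0) : EXC (Cv 6) (S6 d) := exc6d_of avgb mafk badb hd

/-- the roots of a curve of the family -/
lemma roots6d {H : ℕ} {c : ℤ × ℤ} (hc : c ∈ Cv 6 H) : 4 * c.1 ^ 3 + 27 * c.2 ^ 2 ≠ 0 ∧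
    -(M6 (FF c).1 (FF c).2) ≠ 0 ∧ -(N6 (FF c).1 (FF c).2) ≠ 0 ∧
    -(M6 (FF c).1 (FF c).2) ≠ -(N6 (FF c).1 (FF c).2) ∧
    ∃ (e1 e2 e3 : ℤ) (w : ℚ), w ≠ 0 ∧
    (∀ x : ℤ, x ^ 3 + c.1 * x + c.2 = (x - e1) * (x - e2) * (x - e3)) ∧
      ((e2 - e1 : ℤ) : ℚ) = (-(M6 (FF c).1 (FF c).2) : ℤ) * w ^ 2 ∧
      ((e3 - e1 : ℤ) : ℚ) = (-(N6 (FF c).1 (FF c).2) : ℤ) * w ^ 2 := by
  obtain ⟨hdisc, -, -, -, -⟩ := memCv hc
  obtain ⟨s, hR⟩ := FF_spec hc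
  obtain ⟨e1, e2, e3, hr, h5, h6⟩ := roots6 hR
  refine ⟨hdisc, neg_ne_zero.2 hR.m0, neg_ne_zero.2 hR.n0, fun h => hR.mn (neg_injective h),
    e1, e2, e3, s, hR.s0, hr, ?_, ?_⟩
  · rw [h5]
    push_cast
    ring
  · rw [h6]
    push_cast
    ring

end Pool.Agent.Q17.BF
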